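import Pool.Agent.H12.TC.Zom3

/-!
# Project TC: module ZOM, the limit of the zoom
-/

open Complex Metric Set Filter Topology

namespace Pool.Agent.H63.TC

theorem zom_phi_lt {r : ℝ} (hr0 : 0 ≤ r) (hr1 : r < 1) (θ : ℝ) {ζ : ℂ} (hζ : ‖ζ‖ < 1) :
    (1 + r * ζ : ℂ) ≠ 0 ∧ ‖exp (θ * I) * ((ζ + r) / (1 + r * ζ))‖ < 1 := by
  have h1 : ‖(r : ℂ) * ζ‖ < 1 := by
    rw [norm_mul, Complex.norm_real, Real.norm_eq_abs, abs_of_nonneg hr0]
    nlinarith [norm_nonneg ζ]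
  have h2 : (1 + r * ζ : ℂ) ≠ 0 := by
    intro h
    have h3 : (r : ℂ) * ζ = -1 := by linear_combination h
    rw [h3, norm_neg, norm_one] at h1
    exact lt_irrefl _ h1
  refine ⟨h2, ?_⟩
  rw [norm_mul, norm_exp_ofReal_mul_I, one_mul, norm_div, div_lt_one (norm_pos_iff.2 h2)]
  refine lt_of_pow_lt_pow_left₀ 2 (norm_nonneg _) ?_
  rw [← Complex.normSq_eq_norm_sq, ← Complex.normSq_eq_norm_sq, Complex.normSq_apply,
    Complex.normSq_apply]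
  have h4 : ζ.re * ζ.re + ζ.im * ζ.im < 1 := by
    rw [← Complex.normSq_apply, Complex.normSq_eq_norm_sq]
    nlinarith [norm_nonneg ζ]
  simp
  have h5 : 0 < 1 - r ^ 2 := by nlinarith
  nlinarith [mul_pos h5 (show 0 < 1 - (ζ.re * ζ.re + ζ.im * ζ.im) by linarith)]

theorem zom (hCpt : CptStmt) (hZm1 : Zm1Stmt) (hZm2 : Zm2Stmt) (hLmt : LmtStmt)
    (hLiw : LiwStmt) (hHyp : HypStmt) (hIdt : IdtStmt) (hCho : ChoStmt) (hPhd : PhdStmt)
    (hWhl : WhlStmt) : ZomStmt := by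
  intro V _ _ A W C ξ a₀ b₁ b₂ c₁ c₂ ρ c C' L KY D r b θ hC hξ hne hbc hcc hcb hρ hc hL hWL hKY
    hKYY hD hDd hr hrb hρz hact hdisc hlimD
  obtain ⟨z1, z2, z3, z4, z5, z6, z7⟩ := hZm1
  choose ga gb gc gd gm gk hG hactK using hact
  have hr0 : ∀ n, 1 / 2 ≤ r n := fun n => (hrb n).1.1
  have hr1 : ∀ n, r n < 1 := fun n => (hrb n).1.2
  have hb : ∀ n, b n ∈ Ioo b₁ b₂ := fun n =>
    ⟨hbc.trans_le (hrb n).2.1, (hrb n).2.2.trans_lt hcb⟩
  -- the points of the disc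
  obtain ⟨z, hz⟩ : ∃ z : ℕ → ℂ, ∀ n, z n = r n * exp (θ n * I) := ⟨_, fun n => rfl⟩
  simp only [← hz] at hρz hactK hdisc hlimD
  have hzn : ∀ n, ‖z n‖ = r n := fun n => by
    rw [hz, norm_mul, norm_exp_ofReal_mul_I, mul_one, Complex.norm_real, Real.norm_eq_abs]
    exact abs_of_pos (by linarith [hr0 n])
  have hzb : ∀ n, z n ∈ ball (0 : ℂ) 1 := fun n => by
    rw [mem_ball_zero_iff, hzn]; exact hr1 n
  have hz1 : ∀ n, 1 - z n ≠ 0 := fun n h => by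
    have := hρz n
    rw [h, norm_zero] at this
    linarith
  obtain ⟨τ, hτd⟩ : ∃ τ : ℕ → ℂ, ∀ n, τ n = cay I (z n) := ⟨_, fun n => rfl⟩
  simp only [← hτd] at hactK
  have hτ : ∀ n, 0 < (τ n).im := fun n => by
    rw [hτd]; exact z6 I (z n) (by simp) (hzb n)
  have hdet : ∀ n, ga n * gd n - gb n * gc n = 1 := fun n => (hG n).1
  obtain ⟨τ'', hτ''⟩ : ∃ τ'' : ℕ → ℂ, ∀ n, τ'' n = (ga n * τ n + gb n) / (gc n * τ n + gd n) :=
    ⟨_, fun n => rfl⟩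
  have hz4 : ∀ n, (gc n * τ n + gd n) * (ga n - gc n * τ'' n) = 1 ∧ 0 < (τ'' n).im ∧
      (τ'' n).im = (τ n).im / ‖(gc n * τ n + gd n : ℂ)‖ ^ 2 := fun n => by
    rw [hτ'']
    exact z4 (ga n) (gb n) (gc n) (gd n) (hdet n) (τ n) (hτ n)
  -- the deck transformations
  obtain ⟨KV, hKV, hKV'⟩ := hZm2 V A W KY hKY hKYY
  have hWp : ∀ n, W.W (L (b n) (τ n)) = (τ n, a₀ * τ n + b n) := fun n =>
    hWL (b n) (hb n) (τ n) (hτ n)
  have hg : ∀ n, ∃ g : V ≃ₜ V, (∀ y, A.E (g y) = A.E y) ∧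
      (∀ y, W.W (g y) = act (ga n) (gb n) (gc n) (gd n) (gm n) (gk n) (W.W y)) ∧
      g (L (b n) (τ n)) ∈ KV := fun n =>
    hKV' (L (b n) (τ n)) _ _ _ _ _ _ (hG n) (by rw [hWp n]; exact hactK n)
  choose g hgE hgW hgK using hg
  obtain ⟨l, hl⟩ : ∃ l : Ultrafilter ℕ, (l : Filter ℕ) ≤ atTop :=
    ⟨hyperfilter ℕ, Nat.hyperfilter_le_atTop⟩
  obtain ⟨N, hN, ξ', hCξ', hξ'ne, hξ'l⟩ := zom_seq hCpt hIdt hCho A C ξ hC hξ hne g hgE l
  obtain ⟨q₀, hq₀, hql⟩ := zom_lim hKV l (fun n => g n (L (b n) (τ n))) (Eventually.of_forall hgK)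
  -- the action on the leaves
  obtain ⟨a'', ha''⟩ : ∃ a'' : ℕ → ℝ, ∀ n, a'' n = a₀ * gd n - b n * gc n + 2 * gm n :=
    ⟨_, fun n => rfl⟩
  obtain ⟨b'', hb''⟩ : ∃ b'' : ℕ → ℝ, ∀ n, b'' n = b n * ga n - a₀ * gb n + 2 * gk n :=
    ⟨_, fun n => rfl⟩
  have hact_eq : ∀ n (t : ℝ) (x : ℂ), 0 < x.im →
      act (ga n) (gb n) (gc n) (gd n) (gm n) (gk n) (x, a₀ * x + b n + t) =
        ((ga n * x + gb n) / (gc n * x + gd n),
          a'' n * ((ga n * x + gb n) / (gc n * x + gd n)) + b'' n +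
          t * (ga n - gc n * ((ga n * x + gb n) / (gc n * x + gd n)))) := by
    intro n t x hx
    rw [z3 (ga n) (gb n) (gc n) (gd n) (gm n) (gk n) (hdet n) x a₀ (b n) t hx, ha'', hb'']
    push_cast
    rfl
  have hWq : ∀ n, W.W (g n (L (b n) (τ n))) = (τ'' n, a'' n * τ'' n + b'' n) := by
    intro n
    have h1 := hact_eq n 0 (τ n) (hτ n)
    rw [hgW, hWp]
    simp only [Complex.ofReal_zero, add_zero, zero_mul] at h1
    rw [h1, hτ'']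
  -- limits of the parameters
  have hWql : Tendsto (fun n => W.W (g n (L (b n) (τ n)))) l (𝓝 (W.W q₀)) :=
    (W.cont.tendsto q₀).comp hql
  have hτl : Tendsto τ'' l (𝓝 (W.W q₀).1) := by
    refine ((continuous_fst.tendsto _).comp hWql).congr fun n => ?_
    simp [hWq n]
  have hul : Tendsto (fun n => a'' n * τ'' n + b'' n : ℕ → ℂ) l (𝓝 (W.W q₀).2) := by
    refine ((continuous_snd.tendsto _).comp hWql).congr fun n => ?_
    simp [hWq n]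
  choose l1 hl1 hl1' using fun n => z1 (r n) (θ n) (by linarith [hr0 n]) (hr1 n)
  choose l2 hl2 hl2' using fun n => z2 (ga n) (gb n) (gc n) (gd n) (hdet n) (τ n) (hτ n)
  have hsize : ∀ n, ‖((Real.sqrt (1 - r n) * ga n : ℝ) : ℂ) -
      ((Real.sqrt (1 - r n) * gc n : ℝ) : ℂ) * τ'' n‖ ^ 2 =
        (τ'' n).im * ‖1 - z n‖ ^ 2 / (1 + r n) := by
    intro n
    refine zom_size (hr0 n) (hr1 n) (z n) (τ n) (τ'' n) (ga n) (gc n) (gc n * τ n + gd n) ?_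
      (hz4 n).2.2 ?_ (hz1 n)
    · have := (hz4 n).1
      push_cast
      exact this
    · rw [hτd, hz]
      exact z5 (r n) (θ n) (by linarith [hr0 n]) (hr1 n)
  have hz2 : ∀ n, ‖1 - z n‖ ≤ 2 := fun n => by
    have := norm_sub_le (1 : ℂ) (z n)
    rw [norm_one, hzn] at this
    linarith [hr1 n]
  obtain ⟨ω₀, aa, bb, α₀, β₀, hxl, hω₀, hv₀⟩ := zom_params l τ'' _ (fun n => l2 n * l1 n) a'' b''
    (fun n => Real.sqrt (1 - r n) * ga n) (fun n => Real.sqrt (1 - r n) * gc n) _ _ hτl hul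
    (W.mem q₀).1 (fun n => (hz4 n).2.1) (fun n => rfl) (ρ ^ 2 / 2) (by positivity) (by
      intro n
      rw [hsize n, le_div_iff₀ (by linarith [hr0 n])]
      have h1 : ρ ^ 2 ≤ ‖1 - z n‖ ^ 2 := pow_le_pow_left₀ hρ.le (hρz n) 2
      have h2 := (hz4 n).2.1
      have h3 : ρ ^ 2 / 2 * (1 + r n) ≤ ‖1 - z n‖ ^ 2 := by
        nlinarith [hr1 n, sq_nonneg ρ]
      calc ρ ^ 2 / 2 * (τ'' n).im * (1 + r n) = (τ'' n).im * (ρ ^ 2 / 2 * (1 + r n)) := by ring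
        _ ≤ (τ'' n).im * ‖1 - z n‖ ^ 2 := mul_le_mul_of_nonneg_left h3 h2.le) (by
      intro n
      rw [hsize n, div_le_iff₀ (by linarith [hr0 n])]
      have h1 : ‖1 - z n‖ ^ 2 ≤ 2 ^ 2 := pow_le_pow_left₀ (norm_nonneg _) (hz2 n) 2
      have h2 := (hz4 n).2.1
      have h3 : ‖1 - z n‖ ^ 2 ≤ 4 * (1 + r n) := by nlinarith [hr0 n]
      calc (τ'' n).im * ‖1 - z n‖ ^ 2 ≤ (τ'' n).im * (4 * (1 + r n)) :=
            mul_le_mul_of_nonneg_left h3 h2.le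
        _ = 4 * (τ'' n).im * (1 + r n) := by ring) (fun n => by rw [norm_mul, hl1, hl2, one_mul])
  -- the coordinates near the limit point
  have hs0 : ∀ n, 0 < Real.sqrt (1 - r n) := fun n => Real.sqrt_pos.2 (by linarith [hr1 n])
  have hs1 : ∀ n, Real.sqrt (1 - r n) ≤ 1 := fun n => by
    rw [Real.sqrt_le_iff]
    constructor <;> linarith [hr0 n]
  obtain ⟨φ, hφ⟩ : ∃ φ : ℕ → ℂ → ℂ, ∀ n ζ, φ n ζ = exp (θ n * I) * ((ζ + r n) / (1 + r n * ζ)) :=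
    ⟨_, fun n ζ => rfl⟩
  simp only [← hφ] at hl1' hlimD
  have hφ0 : ∀ n, φ n 0 = z n := fun n => by
    rw [hφ, hz]; simp [mul_comm]
  have hφb : ∀ n ζ, ‖ζ‖ < 1 → φ n ζ ∈ ball (0 : ℂ) 1 := fun n ζ hζ => by
    rw [hφ, mem_ball_zero_iff]
    exact (zom_phi_lt (by linarith [hr0 n]) (hr1 n) (θ n) hζ).2
  have hlb : ∀ n ζ, ‖ζ‖ < 1 → l1 n * ζ ∈ ball (0 : ℂ) 1 := fun n ζ hζ => by
    rw [mem_ball_zero_iff, norm_mul, hl1, one_mul]
    exact hζ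
  have hcay : ∀ n ζ, ‖ζ‖ < 1 → cay I (φ n ζ) = cay (τ n) (l1 n * ζ) := fun n ζ hζ => by
    rw [hl1' n ζ (mem_ball_zero_iff.2 hζ), hτd, hz]
  have hcayim : ∀ n ζ, ‖ζ‖ < 1 → 0 < (cay I (φ n ζ)).im := fun n ζ hζ => by
    rw [hcay n ζ hζ]
    exact z6 (τ n) _ (hτ n) (hlb n ζ hζ)
  have hcay2 : ∀ n ζ, ‖ζ‖ < 1 →
      (ga n * cay I (φ n ζ) + gb n) / (gc n * cay I (φ n ζ) + gd n) =
        cay (τ'' n) (l2 n * l1 n * ζ) := fun n ζ hζ => by
    rw [hcay n ζ hζ, hl2' n _ (hlb n ζ hζ), hτ'', mul_assoc]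
  -- the box
  obtain ⟨δ₀, hδ₀, hδ₀1, hδ₀2, hδ₀3⟩ : ∃ δ₀ : ℝ, 0 < δ₀ ∧ δ₀ ≤ 1 / 2 ∧ δ₀ ≤ c₁ - b₁ ∧
      δ₀ ≤ b₂ - c₂ := by
    refine ⟨min (1 / 2) (min (c₁ - b₁) (b₂ - c₂)), ?_, min_le_left _ _,
      (min_le_right _ _).trans (min_le_left _ _), (min_le_right _ _).trans (min_le_right _ _)⟩
    exact lt_min (by norm_num) (lt_min (by linarith) (by linarith))
  have hy1 : ∀ (δ : ℝ) (y : ℝ × ℂ), y ∈ ball (0 : ℝ × ℂ) δ → |y.1| < δ ∧ ‖y.2‖ < δ := by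
    intro δ y hy
    rw [mem_ball_zero_iff, Prod.norm_def, max_lt_iff, Real.norm_eq_abs] at hy
    exact hy
  have hbt : ∀ n, ∀ y ∈ ball (0 : ℝ × ℂ) δ₀, b n + Real.sqrt (1 - r n) * y.1 ∈ Ioo b₁ b₂ := by
    intro n y hy
    have h1 := (hy1 _ y hy).1
    have h2 : |Real.sqrt (1 - r n) * y.1| < δ₀ := by
      rw [abs_mul, abs_of_pos (hs0 n)]
      calc Real.sqrt (1 - r n) * |y.1| ≤ 1 * |y.1| :=
            mul_le_mul_of_nonneg_right (hs1 n) (abs_nonneg _)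
        _ < δ₀ := by rw [one_mul]; exact h1
    rw [abs_lt] at h2
    constructor
    · linarith [(hrb n).2.1]
    · linarith [(hrb n).2.2]
  have hζ1 : ∀ y ∈ ball (0 : ℝ × ℂ) δ₀, ‖y.2‖ < 1 := fun y hy => by
    have := (hy1 _ y hy).2
    linarith
  obtain ⟨Pn, hPn⟩ : ∃ Pn : ℕ → ℝ × ℂ → V, ∀ n y,
      Pn n y = g n (L (b n + Real.sqrt (1 - r n) * y.1) (cay I (φ n y.2))) :=
    ⟨_, fun n y => rfl⟩
  have hPc : ∀ n, ContinuousOn (Pn n) (ball 0 δ₀) := by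
    intro n
    have h1 : ContinuousOn (fun y : ℝ × ℂ => cay I (φ n y.2)) (ball 0 δ₀) := by
      have h2 : ContinuousOn (fun y : ℝ × ℂ => cay (τ n) (l1 n * y.2)) (ball 0 δ₀) := by
        unfold cay
        refine ContinuousOn.div (by fun_prop) (by fun_prop) fun y hy h => ?_
        have h3 := hlb n y.2 (hζ1 y hy)
        rw [← sub_eq_zero.1 h, mem_ball_zero_iff, norm_one] at h3
        exact lt_irrefl _ h3
      exact h2.congr fun y hy => hcay n y.2 (hζ1 y hy)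
    have h4 : ContinuousOn (fun y : ℝ × ℂ => b n + Real.sqrt (1 - r n) * y.1) (ball 0 δ₀) := by
      fun_prop
    have h5 : ContinuousOn (fun y : ℝ × ℂ =>
        L (b n + Real.sqrt (1 - r n) * y.1) (cay I (φ n y.2))) (ball 0 δ₀) :=
      hL.comp (h4.prodMk h1) fun y hy => ⟨hbt n y hy, hcayim n y.2 (hζ1 y hy)⟩
    exact ((g n).continuous.comp_continuousOn h5).congr fun y hy => hPn n y
  have hWL' : ∀ n, ∀ y ∈ ball (0 : ℝ × ℂ) δ₀,
      W.W (L (b n + Real.sqrt (1 - r n) * y.1) (cay I (φ n y.2))) =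
        (cay I (φ n y.2), a₀ * cay I (φ n y.2) + b n + ((Real.sqrt (1 - r n) * y.1 : ℝ) : ℂ)) := by
    intro n y hy
    rw [hWL _ (hbt n y hy) _ (hcayim n y.2 (hζ1 y hy))]
    push_cast
    rw [add_assoc]
  have hPW : ∀ n, ∀ y ∈ ball (0 : ℝ × ℂ) δ₀, W.W (Pn n y) =
      zomPsi (τ'' n, l2 n * l1 n, a'' n, b'' n, Real.sqrt (1 - r n) * ga n,
        Real.sqrt (1 - r n) * gc n) y := by
    intro n y hy
    rw [hPn, hgW, hWL' n y hy, hact_eq n _ _ (hcayim n y.2 (hζ1 y hy)),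
      hcay2 n y.2 (hζ1 y hy)]
    simp only [zomPsi]
    push_cast
    congr 1
    ring
  have hPq : Tendsto (fun n => Pn n 0) l (𝓝 q₀) := by
    refine hql.congr fun n => ?_
    rw [hPn]
    simp only [Prod.fst_zero, Prod.snd_zero, mul_zero, add_zero, hφ0, hτd]
  obtain ⟨R, s, δ, hR, hRY, hsc, hsW, hsq, hW0, hδ, hδδ₀, hin, hev⟩ :=
    zom_local hLiw W l _ _ hxl q₀ δ₀ hδ₀ Pn hPc hPW hPq
  -- the fields
  have hξhol : A.Hol ξ' := hCho V A ξ' (hC.sub _ hCξ')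
  have hφ1 : ∀ n ζ, ‖ζ‖ < 1 → 1 - φ n ζ ≠ 0 := fun n ζ hζ h => by
    have h3 := hφb n ζ hζ
    rw [← sub_eq_zero.1 h, mem_ball_zero_iff, norm_one] at h3
    exact lt_irrefl _ h3
  have hd0 : ∀ n, discF W ξ L (b n) (z n) ≠ 0 := fun n h => by
    have := (hdisc n).1
    rw [h, norm_zero] at this
    linarith
  have hcalc : ∀ n, ∀ y ∈ ball (0 : ℝ × ℂ) δ₀,
      W.hh (fun p => ((N n : ℝ) : ℂ) • ξ ((g n).symm p)) (Pn n y) =
      (N n * discF W ξ L (b n) (z n) * (2 * I) / ((1 - z n) ^ 2 *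
        ((Real.sqrt (1 - r n) : ℝ) : ℂ) ^ 2)) *
      (((Real.sqrt (1 - r n) * ga n : ℝ) : ℂ) - ((Real.sqrt (1 - r n) * gc n : ℝ) : ℂ) *
        cay (τ'' n) (l2 n * l1 n * y.2)) ^ 2 *
      (discF W ξ L (b n + Real.sqrt (1 - r n) * y.1) (φ n y.2) / discF W ξ L (b n) (z n)) *
      ((1 - z n) / (1 - φ n y.2)) ^ 2 := by
    intro n y hy
    have hζ := hζ1 y hy
    have h1 := zom_calc hLmt hPhd W ξ L (g n) (N n) _ _ _ _ _ _ (hG n) (hgW n)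
      (b n + Real.sqrt (1 - r n) * y.1) (φ n y.2) (fun h => hφ1 n y.2 hζ (by rw [h, sub_self]))
      (hcayim n y.2 hζ) (by rw [hWL' n y hy]) (z4 _ _ _ _ (hdet n) _ (hcayim n y.2 hζ)).1
    rw [← hPn, hcay2 n y.2 hζ] at h1
    rw [h1]
    have h2 := hd0 n
    have h3 := hz1 n
    have h4 := hφ1 n y.2 hζ
    have h5 : ((Real.sqrt (1 - r n) : ℝ) : ℂ) ≠ 0 := by exact_mod_cast (hs0 n).ne'
    push_cast
    field_simp
  obtain ⟨ν, hν⟩ : ∃ ν : ℕ → ℂ, ∀ n, ν n = N n * discF W ξ L (b n) (z n) * (2 * I) /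
      ((1 - z n) ^ 2 * ((Real.sqrt (1 - r n) : ℝ) : ℂ) ^ 2) := ⟨_, fun n => rfl⟩
  simp only [← hν] at hcalc
  obtain ⟨τ₀, hτ₀⟩ : ∃ τ₀ : ℂ, τ₀ = (W.W q₀).1 := ⟨_, rfl⟩
  have hτ₀im : 0 < τ₀.im := by rw [hτ₀]; exact (W.mem q₀).1
  rw [← hτ₀] at hxl hv₀ hτl
  rw [← hτ₀] at hW0 hin
  -- limits
  have hψ : ∀ y : ℝ × ℂ, ‖y.2‖ < 1 → Tendsto (fun n => zomPsi (τ'' n, l2 n * l1 n, a'' n, b'' n,
      Real.sqrt (1 - r n) * ga n, Real.sqrt (1 - r n) * gc n) y) l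
      (𝓝 (zomPsi (τ₀, ω₀, aa, bb, α₀, β₀) y)) := fun y hy => by
    have hne : ω₀ * y.2 ≠ 1 := fun h => by
      have := congrArg norm h
      rw [norm_mul, hω₀, one_mul, norm_one] at this
      linarith
    have h1 := zomPsi_cont (x := (τ₀, ω₀, aa, bb, α₀, β₀)) (y := y) hne
    have h2 := hxl.prodMk_nhds (tendsto_const_nhds (x := y))
    exact h1.tendsto.comp h2
  have hαl : Tendsto (fun n => ((Real.sqrt (1 - r n) * ga n : ℝ) : ℂ)) l (𝓝 (α₀ : ℂ)) := by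
    have h1 : Continuous (fun x : ℂ × ℂ × ℝ × ℝ × ℝ × ℝ => ((x.2.2.2.2.1 : ℝ) : ℂ)) := by fun_prop
    exact (h1.tendsto _).comp hxl
  have hβl : Tendsto (fun n => ((Real.sqrt (1 - r n) * gc n : ℝ) : ℂ)) l (𝓝 (β₀ : ℂ)) := by
    have h1 : Continuous (fun x : ℂ × ℂ × ℝ × ℝ × ℝ × ℝ => ((x.2.2.2.2.2 : ℝ) : ℂ)) := by fun_prop
    exact (h1.tendsto _).comp hxl
  have hvl : ∀ y : ℝ × ℂ, ‖y.2‖ < 1 → Tendsto (fun n =>
      ((Real.sqrt (1 - r n) * ga n : ℝ) : ℂ) - ((Real.sqrt (1 - r n) * gc n : ℝ) : ℂ) *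
        cay (τ'' n) (l2 n * l1 n * y.2)) l (𝓝 (α₀ - β₀ * cay τ₀ (ω₀ * y.2))) := fun y hy =>
    hαl.sub (hβl.mul ((continuous_fst.tendsto _).comp (hψ y hy)))
  have hcay0 : cay τ₀ (ω₀ * 0) = τ₀ := by simp [cay]
  have hνl : Tendsto ν l (𝓝 (W.hh ξ' q₀ / (α₀ - β₀ * τ₀) ^ 2)) := by
    have h1 := zom_hhlim hPhd W _ ξ' hξhol.continuous hξ'l (fun n => Pn n 0) q₀ hPq
    have h2 := hvl 0 (by simp)
    simp only [Prod.snd_zero, hcay0] at h2
    refine (h1.div (h2.pow 2) (pow_ne_zero 2 hv₀)).congr' ?_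
    filter_upwards [h2.eventually_ne hv₀] with n hn
    have h3 := hcalc n 0 (mem_ball_self hδ₀)
    simp only [Prod.snd_zero, Prod.fst_zero, hφ0, mul_zero, add_zero] at h3 hn
    rw [div_self (hd0 n), div_self (hz1 n), one_pow, mul_one, mul_one] at h3
    simp only [Pi.div_apply, mul_zero]
    rw [h3]
    field_simp
  have hratio : ∀ j, Tendsto (fun n => discF W ξ L (b n + Real.sqrt (1 - r n) * (D j).1)
      (φ n (D j).2) / discF W ξ L (b n) (z n)) l (𝓝 1) := by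
    intro j
    have h1 := (hlimD j).mono_left hl
    have h2 : Tendsto (fun n => (discF W ξ L (b n + Real.sqrt (1 - r n) * (D j).1)
      (φ n (D j).2) - discF W ξ L (b n) (z n)) / discF W ξ L (b n) (z n)) l (𝓝 0) := by
      refine squeeze_zero_norm (fun n => ?_) (by simpa using h1.norm.div_const c)
      rw [norm_div]
      exact div_le_div_of_nonneg_left (norm_nonneg _) hc (hdisc n).1
    have h3 := h2.add_const 1
    rw [zero_add] at h3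
    refine h3.congr fun n => ?_
    have := hd0 n
    field_simp
    ring
  have hφl : ∀ ζ : ℂ, ‖ζ‖ < 1 → Tendsto (fun n => (1 - z n) / (1 - φ n ζ)) l (𝓝 1) := by
    intro ζ hζ
    have hrl : Tendsto (fun n => (r n : ℂ)) l (𝓝 ((1 : ℝ) : ℂ)) :=
      (Complex.continuous_ofReal.tendsto _).comp (hr.mono_left hl)
    rw [Complex.ofReal_one] at hrl
    have h1ζ : 1 + 1 * ζ ≠ 0 := by
      intro h
      have h3 : ζ = -1 := by linear_combination h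
      rw [h3, norm_neg, norm_one] at hζ
      exact lt_irrefl _ hζ
    have h1 : Tendsto (fun n => (r n : ℂ) - (ζ + r n) / (1 + r n * ζ)) l
        (𝓝 (1 - (ζ + 1) / (1 + 1 * ζ))) :=
      hrl.sub ((hrl.const_add ζ).div ((hrl.mul_const ζ).const_add 1) h1ζ)
    have h2 : (1 - (ζ + 1) / (1 + 1 * ζ) : ℂ) = 0 := by
      rw [one_mul] at h1ζ ⊢
      rw [add_comm ζ 1, div_self h1ζ, sub_self]
    rw [h2] at h1
    have h3 : Tendsto (fun n => (z n - φ n ζ) / (1 - z n)) l (𝓝 0) := by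
      refine squeeze_zero_norm (fun n => ?_) (by simpa using h1.norm.div_const ρ)
      have h4 : z n - φ n ζ = exp (θ n * I) * ((r n : ℂ) - (ζ + r n) / (1 + r n * ζ)) := by
        rw [hz, hφ]; ring
      rw [norm_div, h4, norm_mul, norm_exp_ofReal_mul_I, one_mul]
      exact div_le_div_of_nonneg_left (norm_nonneg _) hρ (hρz n)
    have h5 := (h3.add_const 1)
    rw [zero_add] at h5
    have h6 := h5.inv₀ one_ne_zero
    rw [inv_one] at h6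
    refine h6.congr fun n => ?_
    have h7 := hz1 n
    have h8 := hφ1 n ζ hζ
    have h9 : (z n - φ n ζ) / (1 - z n) + 1 = (1 - φ n ζ) / (1 - z n) := by
      field_simp
      ring
    rw [h9, inv_div]
  -- the identity at the points `D j`
  obtain ⟨κ, hκ⟩ : ∃ κ : ℂ, κ = W.hh ξ' q₀ / (α₀ - β₀ * τ₀) ^ 2 := ⟨_, rfl⟩
  rw [← hκ] at hνl
  have hkey : ∀ j, D j ∈ ball (0 : ℝ × ℂ) δ →
      W.hh ξ' (s (zomPsi (τ₀, ω₀, aa, bb, α₀, β₀) (D j))) =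
        κ * (α₀ - β₀ * cay τ₀ (ω₀ * (D j).2)) ^ 2 := by
    intro j hj
    have hj0 := ball_subset_ball hδδ₀ hj
    have hζ := hζ1 _ hj0
    have h1 : Tendsto (fun n => Pn n (D j)) l
        (𝓝 (s (zomPsi (τ₀, ω₀, aa, bb, α₀, β₀) (D j)))) := by
      have h2 : ContinuousAt s (zomPsi (τ₀, ω₀, aa, bb, α₀, β₀) (D j)) :=
        hsc.continuousAt (isOpen_ball.mem_nhds (hin _ hj))
      refine (h2.tendsto.comp (hψ (D j) hζ)).congr' ?_
      filter_upwards [hev] with n hn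
      exact (hn (D j) hj).2.symm
    have h3 := zom_hhlim hPhd W _ ξ' hξhol.continuous hξ'l _ _ h1
    have h4 : Tendsto (fun n => W.hh (fun p => ((N n : ℝ) : ℂ) • ξ ((g n).symm p)) (Pn n (D j))) l
        (𝓝 (κ * (α₀ - β₀ * cay τ₀ (ω₀ * (D j).2)) ^ 2 * 1 * 1 ^ 2)) := by
      refine Tendsto.congr (fun n => (hcalc n (D j) hj0).symm) ?_
      exact ((hνl.mul ((hvl (D j) hζ).pow 2)).mul (hratio j)).mul ((hφl _ hζ).pow 2)
    rw [one_pow, mul_one, mul_one] at h4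
    exact tendsto_nhds_unique h3 h4
  -- the identity on the box
  have hψc : ∀ y ∈ ball (0 : ℝ × ℂ) δ,
      ContinuousAt (zomPsi (τ₀, ω₀, aa, bb, α₀, β₀)) y := by
    intro y hy
    have hζ := hζ1 _ (ball_subset_ball hδδ₀ hy)
    have hne : ω₀ * y.2 ≠ 1 := fun h => by
      have := congrArg norm h
      rw [norm_mul, hω₀, one_mul, norm_one] at this
      linarith
    have h1 := zomPsi_cont (x := (τ₀, ω₀, aa, bb, α₀, β₀)) (y := y) hne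
    have h2 : ContinuousAt (fun y : ℝ × ℂ =>
        (((τ₀, ω₀, aa, bb, α₀, β₀) : ℂ × ℂ × ℝ × ℝ × ℝ × ℝ), y)) y := by fun_prop
    exact ContinuousAt.comp (g := fun q : (ℂ × ℂ × ℝ × ℝ × ℝ × ℝ) × (ℝ × ℂ) => zomPsi q.1 q.2)
      (f := fun y : ℝ × ℂ => (((τ₀, ω₀, aa, bb, α₀, β₀) : ℂ × ℂ × ℝ × ℝ × ℝ × ℝ), y)) h1 h2
  have hhhc : Continuous (W.hh ξ') := (zom_hh_hol hPhd hWhl W ξ' hξhol).continuous
  have hmain : ∀ y ∈ ball (0 : ℝ × ℂ) δ,
      W.hh ξ' (s (zomPsi (τ₀, ω₀, aa, bb, α₀, β₀) y)) -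
        κ * (α₀ - β₀ * (zomPsi (τ₀, ω₀, aa, bb, α₀, β₀) y).1) ^ 2 = 0 := by
    intro y hy
    by_contra hcon
    have h1 : ContinuousAt (fun y => W.hh ξ' (s (zomPsi (τ₀, ω₀, aa, bb, α₀, β₀) y)) -
        κ * (α₀ - β₀ * (zomPsi (τ₀, ω₀, aa, bb, α₀, β₀) y).1) ^ 2) y := by
      have h2 : ContinuousAt s (zomPsi (τ₀, ω₀, aa, bb, α₀, β₀) y) :=
        hsc.continuousAt (isOpen_ball.mem_nhds (hin _ hy))
      have h3 : ContinuousAt (fun y => s (zomPsi (τ₀, ω₀, aa, bb, α₀, β₀) y)) y :=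
        ContinuousAt.comp (g := s) h2 (hψc y hy)
      have h4 : ContinuousAt (fun y => W.hh ξ' (s (zomPsi (τ₀, ω₀, aa, bb, α₀, β₀) y))) y :=
        ContinuousAt.comp (g := W.hh ξ') hhhc.continuousAt h3
      have h5 : ContinuousAt (fun y => (zomPsi (τ₀, ω₀, aa, bb, α₀, β₀) y).1) y :=
        ContinuousAt.fst (hψc y hy)
      exact h4.sub (continuousAt_const.mul ((continuousAt_const.sub
        (continuousAt_const.mul h5)).pow 2))
    have h6 := h1.eventually_ne hcon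
    have h7 : ∀ᶠ y' in 𝓝 y, y' ∈ ball (0 : ℝ × ℂ) δ := isOpen_ball.mem_nhds hy
    have h8 := mem_closure_iff_frequently.1 (hDd y (mem_ball_zero_iff.2
      (hζ1 _ (ball_subset_ball hδδ₀ hy))))
    obtain ⟨y', ⟨j, rfl⟩, h9, h10⟩ := (h8.and_eventually (h6.and h7)).exists
    exact h9 (sub_eq_zero.2 (hkey j h10))
  -- vanishing everywhere
  obtain ⟨ρ', hρ', hρ1, hρ2, hρ3⟩ : ∃ ρ' : ℝ, 0 < ρ' ∧ ρ' ≤ δ ∧ ρ' ≤ δ * τ₀.im ∧ ρ' ≤ τ₀.im := by
    refine ⟨min δ (min (δ * τ₀.im) τ₀.im), ?_, min_le_left _ _,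
      (min_le_right _ _).trans (min_le_left _ _), (min_le_right _ _).trans (min_le_right _ _)⟩
    exact lt_min hδ (lt_min (mul_pos hδ hτ₀im) hτ₀im)
  have hcoord : ∀ t ∈ Ioo (-ρ') ρ', ∀ x ∈ ball τ₀ ρ', ∃ y ∈ ball (0 : ℝ × ℂ) δ,
      zomPsi (τ₀, ω₀, aa, bb, α₀, β₀) y = (x, aa * x + bb + t * (α₀ - β₀ * x)) := by
    intro t ht x hx
    rw [mem_ball, dist_eq_norm] at hx
    have him : |(x - τ₀).im| < ρ' := (Complex.abs_im_le_norm _).trans_lt hx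
    rw [Complex.sub_im, abs_lt] at him
    have hxc : τ₀.im < ‖x - (starRingEnd ℂ) τ₀‖ := by
      refine lt_of_lt_of_le ?_ (Complex.abs_im_le_norm _)
      rw [Complex.sub_im, Complex.conj_im]
      refine lt_of_lt_of_le ?_ (le_abs_self _)
      linarith
    have hxc0 : x - (starRingEnd ℂ) τ₀ ≠ 0 := norm_pos_iff.1 (hτ₀im.trans hxc)
    have hτc0 : τ₀ - (starRingEnd ℂ) τ₀ ≠ 0 := by
      intro h
      have := congrArg Complex.im h
      rw [Complex.sub_im, Complex.conj_im, Complex.zero_im] at this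
      linarith
    have hω0 : ω₀ ≠ 0 := by
      rintro rfl
      rw [norm_zero] at hω₀
      exact zero_ne_one hω₀
    refine ⟨(t, ω₀⁻¹ * ((x - τ₀) / (x - (starRingEnd ℂ) τ₀))), ?_, ?_⟩
    · rw [mem_ball_zero_iff, Prod.norm_def, max_lt_iff]
      constructor
      · rw [Real.norm_eq_abs, abs_lt]
        exact ⟨by linarith [ht.1], by linarith [ht.2]⟩
      · simp only
        rw [norm_mul, norm_inv, hω₀, inv_one, one_mul, norm_div, div_lt_iff₀ (hτ₀im.trans hxc)]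
        calc ‖x - τ₀‖ < δ * τ₀.im := hx.trans_le hρ2
          _ ≤ δ * ‖x - (starRingEnd ℂ) τ₀‖ := mul_le_mul_of_nonneg_left hxc.le hδ.le
    · have hcx : cay τ₀ (ω₀ * (ω₀⁻¹ * ((x - τ₀) / (x - (starRingEnd ℂ) τ₀)))) = x := by
        rw [mul_inv_cancel_left₀ hω0]
        unfold cay
        have h1 : (1 - (x - τ₀) / (x - (starRingEnd ℂ) τ₀) : ℂ) =
            (τ₀ - (starRingEnd ℂ) τ₀) / (x - (starRingEnd ℂ) τ₀) := by
          field_simp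
          ring
        rw [h1]
        field_simp
        ring
      simp only [zomPsi, hcx]
  have hfin := hHyp V A W (fun p => W.hh ξ' p - κ * (α₀ - β₀ * (W.W p).1) ^ 2) α₀ β₀ aa bb ρ' τ₀
    (fun t x => s (x, aa * x + bb + t * (α₀ - β₀ * x))) ?_ ?_ hρ' hρ3 ?_ ?_
  · refine ⟨ξ', hCξ', κ, α₀, β₀, ?_, ?_, fun p => sub_eq_zero.1 (hfin p)⟩
    · rintro rfl
      obtain ⟨p, hp⟩ := hξ'ne
      refine hp (hC.nondeg ξ' hCξ' (fun p => ?_) p)
      have h1 := hfin p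
      simp only [zero_mul, sub_zero] at h1
      unfold Ell.hh at h1
      rcases div_eq_zero_iff.1 h1 with h2 | h2
      · exact h2
      · exact absurd h2 (zom_lam hPhd (W.mem p).1).2.1
    · by_contra hcon
      push Not at hcon
      refine hv₀ ?_
      rw [hcon.1, hcon.2]
      simp
  · intro p
    have h1 := zom_hh_hol hPhd hWhl W ξ' hξhol p
    have h2 : DifferentiableAt ℂ (fun m => (W.W (A.sec p m)).1) (A.E p) :=
      ((hWhl V A W).1 p).fst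
    exact h1.sub ((((h2.const_mul (β₀ : ℂ)).const_sub (α₀ : ℂ)).pow 2).const_mul κ)
  · by_contra hcon
    push Not at hcon
    refine hv₀ ?_
    rw [hcon.1, hcon.2]
    simp
  · refine hsc.comp (by fun_prop) ?_
    rintro ⟨t, x⟩ ⟨ht, hx⟩
    obtain ⟨y, hy, hye⟩ := hcoord t ht x hx
    simp only
    rw [← hye]
    exact hin y hy
  · intro t ht x hx
    obtain ⟨y, hy, hye⟩ := hcoord t ht x hx
    have h1 := hin y hy
    have h2 := hmain y hy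
    rw [hye] at h1 h2
    have h3 := hsW _ h1
    refine ⟨h3, ?_⟩
    rw [h3]
    exact h2

end Pool.Agent.H63.TC
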