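import Pool.Agent.H63.TC.Stmts

/-!
# Project TC: module ZOM, first part: normalisation of the pulled back fields
-/

open Complex Metric Set Filter Topology

namespace Pool.Agent.H63.TC

theorem zom_seq (hCpt : CptStmt) (hIdt : IdtStmt) (hCho : ChoStmt)
    {V : Type} [TopologicalSpace V] [SimplyConnectedSpace V] (A : Atlas V)
    (C : (V → ℂ × ℂ) → Prop) (ξ : V → ℂ × ℂ) (hC : GoodC A C) (hξ : C ξ) (hne : ∃ p, ξ p ≠ 0)
    (g : ℕ → V ≃ₜ V) (hg : ∀ n p, A.E (g n p) = A.E p) (l : Ultrafilter ℕ) :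
    ∃ N : ℕ → ℝ, (∀ n, 0 < N n) ∧ ∃ ξ' : V → ℂ × ℂ, C ξ' ∧ (∃ p, ξ' p ≠ 0) ∧
      TendstoLocallyUniformly (fun n p => ((N n : ℝ) : ℂ) • ξ ((g n).symm p)) ξ'
        (l : Filter ℕ) := by
  obtain ⟨p₀, hp₀⟩ := hne
  have hdd := A.dd_pos p₀
  set K₀ : Set V := A.sb p₀ (TC.dd (A.E p₀) / 2) with hK₀
  have hK₀c : IsCompact K₀ := A.isCompact_sb p₀ (by linarith)
  have hK₀n : K₀ ∈ 𝓝 p₀ := A.sb_mem_nhds p₀ (by linarith)
  have hK₀i : (interior K₀).Nonempty := ⟨p₀, mem_interior_iff_mem_nhds.2 hK₀n⟩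
  have hK₀ne : K₀.Nonempty := ⟨p₀, mem_of_mem_nhds hK₀n⟩
  have hgs : ∀ n p, A.E ((g n).symm p) = A.E p := fun n p => by
    have := hg n ((g n).symm p)
    rw [(g n).apply_symm_apply] at this
    exact this.symm
  have hCf : ∀ n, C (fun p => ξ ((g n).symm p)) := fun n => hC.deck ξ hξ (g n).symm (hgs n)
  have hHf : ∀ n, A.Hol (fun p => ξ ((g n).symm p)) := fun n =>
    hCho V A _ (hC.sub _ (hCf n))
  have hcf : ∀ n, Continuous (fun p => ξ ((g n).symm p)) := fun n => (hHf n).continuous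
  have hmax : ∀ n, ∃ x ∈ K₀, ∀ p ∈ K₀, ‖ξ ((g n).symm p)‖ ≤ ‖ξ ((g n).symm x)‖ := fun n => by
    obtain ⟨x, hx, hx'⟩ := hK₀c.exists_isMaxOn hK₀ne (hcf n).norm.continuousOn
    exact ⟨x, hx, fun p hp => hx' hp⟩
  choose x hx hxm using hmax
  have hpos : ∀ n, 0 < ‖ξ ((g n).symm (x n))‖ := by
    intro n
    by_contra hcon
    have h0 : ‖ξ ((g n).symm (x n))‖ = 0 := le_antisymm (not_lt.1 hcon) (norm_nonneg _)
    have h1 : ∀ p ∈ interior K₀, (fun p => ξ ((g n).symm p)) p = (fun _ => (0 : ℂ × ℂ)) p := by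
      intro p hp
      have := hxm n p (interior_subset hp)
      rw [h0] at this
      exact norm_le_zero_iff.1 this
    have h2 : A.Hol (fun _ : V => (0 : ℂ × ℂ)) := fun p => differentiableAt_const _
    have h3 := hIdt V A (ℂ × ℂ) _ _ (interior K₀) (hHf n) h2 isOpen_interior hK₀i h1 (g n p₀)
    simp only [Homeomorph.symm_apply_apply] at h3
    exact hp₀ h3
  have hCn : ∀ n, C (fun p => ((‖ξ ((g n).symm (x n))‖⁻¹ : ℝ) : ℂ) • ξ ((g n).symm p)) := fun n =>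
    hC.smul _ (hCf n) _ (inv_pos.2 (hpos n))
  have hle : ∀ n, ∀ p ∈ K₀,
      ‖((‖ξ ((g n).symm (x n))‖⁻¹ : ℝ) : ℂ) • ξ ((g n).symm p)‖ ≤ 1 := by
    intro n p hp
    rw [norm_smul, Complex.norm_real, norm_inv, norm_norm, inv_mul_le_iff₀ (hpos n), mul_one]
    exact hxm n p hp
  obtain ⟨ξ', hξ', hlim⟩ := hCpt V A K₀ hK₀i l _ 1 (fun n => hC.sub _ (hCn n)) hle
  refine ⟨fun n => ‖ξ ((g n).symm (x n))‖⁻¹, fun n => inv_pos.2 (hpos n), ξ',
    hC.closed l _ ξ' hCn hlim, ?_, hlim⟩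
  by_contra hcon
  push Not at hcon
  have h4 := (tendstoLocallyUniformlyOn_iff_tendstoUniformlyOn_of_compact hK₀c).1
    (hlim.tendstoLocallyUniformlyOn (s := K₀))
  rw [Metric.tendstoUniformlyOn_iff] at h4
  obtain ⟨n, hn⟩ := (h4 (1 / 2) (by norm_num)).exists
  have h5 := hn (x n) (hx n)
  rw [hcon, dist_eq_norm, zero_sub, norm_neg, norm_smul, Complex.norm_real, norm_inv, norm_norm,
    inv_mul_cancel₀ (hpos n).ne'] at h5
  norm_num at h5

/-- `lam` is holomorphic, its derivative is holomorphic without zeros -/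
theorem zom_lam (hPhd : PhdStmt) {τ : ℂ} (hτ : 0 < τ.im) :
    DifferentiableAt ℂ lam τ ∧ deriv lam τ ≠ 0 ∧ DifferentiableAt ℂ (deriv lam) τ := by
  have key : ∀ τ : ℂ, 0 < τ.im → deriv lam τ ≠ 0 := by
    intro τ hτ
    have hq : ((τ, 1 / 2) : ℂ × ℂ) ∈ YY := by
      refine ⟨hτ, ?_⟩
      rintro ⟨m, n, h⟩
      have him := congrArg Complex.im h
      simp only [Complex.add_im, Complex.mul_im, Complex.intCast_im, Complex.intCast_re,
        zero_mul, add_zero] at him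
      have h2 : (m : ℝ) = 0 := by
        have h3 : ((1 / 2 : ℂ)).im = 0 := by norm_num
        rw [h3] at him
        rcases mul_eq_zero.1 him.symm with h | h
        · exact h
        · exact absurd h hτ.ne'
      have h4 : (m : ℂ) = 0 := by exact_mod_cast h2
      rw [h4, zero_mul, zero_add] at h
      have h5 : (2 : ℂ) * n = 1 := by rw [← h]; norm_num
      have h6 : (2 : ℤ) * n = 1 := by exact_mod_cast h5
      omega
    exact (hPhd _ hq).2.1
  have hd : ∀ τ : ℂ, 0 < τ.im → DifferentiableAt ℂ lam τ := fun τ hτ =>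
    differentiableAt_of_deriv_ne_zero (key τ hτ)
  have ho : IsOpen {τ : ℂ | 0 < τ.im} := isOpen_lt continuous_const Complex.continuous_im
  have hD : DifferentiableOn ℂ lam {τ : ℂ | 0 < τ.im} := fun τ hτ =>
    (hd τ hτ).differentiableWithinAt
  exact ⟨hd τ hτ, key τ hτ, ((hD.deriv ho) τ hτ).differentiableAt (ho.mem_nhds hτ)⟩

theorem zom_hhlim (hPhd : PhdStmt) {V : Type} [TopologicalSpace V] {A : Atlas V} (W : Ell A)
    {l : Filter ℕ} (f : ℕ → V → ℂ × ℂ) (ξ' : V → ℂ × ℂ) (hc : Continuous ξ')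
    (hf : TendstoLocallyUniformly f ξ' l) (x : ℕ → V) (x₀ : V) (hx : Tendsto x l (𝓝 x₀)) :
    Tendsto (fun n => W.hh (f n) (x n)) l (𝓝 (W.hh ξ' x₀)) := by
  have h1 : Tendsto (fun n => f n (x n)) l (𝓝 (ξ' x₀)) :=
    hf.tendsto_comp hc.continuousAt hx
  have h2 : Tendsto (fun n => (f n (x n)).1) l (𝓝 (ξ' x₀).1) :=
    (continuous_fst.tendsto _).comp h1
  have h3 := zom_lam hPhd (W.mem x₀).1
  have h4 : Tendsto (fun n => (W.W (x n)).1) l (𝓝 (W.W x₀).1) :=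
    ((continuous_fst.comp W.cont).tendsto x₀).comp hx
  have h5 : Tendsto (fun n => deriv lam (W.W (x n)).1) l (𝓝 (deriv lam (W.W x₀).1)) :=
    h3.2.2.continuousAt.tendsto.comp h4
  exact h2.div h5 h3.2.1

/-- the `τ`-component of a holomorphic field is holomorphic -/
theorem zom_hh_hol (hPhd : PhdStmt) (hWhl : WhlStmt) {V : Type} [TopologicalSpace V]
    {A : Atlas V} (W : Ell A) (ξ : V → ℂ × ℂ) (hξ : A.Hol ξ) : A.Hol (W.hh ξ) := by
  intro p
  have h1 : DifferentiableAt ℂ (fun m => (ξ (A.sec p m)).1) (A.E p) := (hξ p).fst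
  have h2 : DifferentiableAt ℂ (fun m => (W.W (A.sec p m)).1) (A.E p) :=
    ((hWhl V A W).1 p).fst
  have h3 := zom_lam hPhd (W.mem (A.sec p (A.E p))).1
  have h4 : DifferentiableAt ℂ (fun m => deriv lam (W.W (A.sec p m)).1) (A.E p) :=
    DifferentiableAt.comp (g := deriv lam) (f := fun m => (W.W (A.sec p m)).1) (A.E p)
      h3.2.2 h2
  have h5 : DifferentiableAt ℂ
      (fun m => (ξ (A.sec p m)).1 / deriv lam (W.W (A.sec p m)).1) (A.E p) := by
    simp only [div_eq_mul_inv]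
    exact h1.mul (h4.inv h3.2.1)
  exact h5

end Pool.Agent.H63.TC
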