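import Pool.Agent.H12.TC.Zom1

/-!
# Project TC: module ZOM, second part: the local picture at the limit point
-/

open Complex Metric Set Filter Topology

namespace Pool.Agent.H63.TC

theorem zom_isOpen_YY : IsOpen YY := by
  have ho : IsOpen {q : ℂ × ℂ | 0 < q.1.im} :=
    isOpen_lt continuous_const (Complex.continuous_im.comp continuous_fst)
  have hc : ContinuousOn (fun q : ℂ × ℂ =>
      (q.2.im / q.1.im, q.2.re - q.2.im / q.1.im * q.1.re)) {q : ℂ × ℂ | 0 < q.1.im} := by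
    intro q hq
    have hq' : q.1.im ≠ 0 := ne_of_gt hq
    refine ContinuousAt.continuousWithinAt ?_
    have h1 : ContinuousAt (fun q : ℂ × ℂ => q.2.im / q.1.im) q :=
      ContinuousAt.div (Complex.continuous_im.comp continuous_snd).continuousAt
        (Complex.continuous_im.comp continuous_fst).continuousAt hq'
    refine h1.prodMk ?_
    exact (Complex.continuous_re.comp continuous_snd).continuousAt.sub
      (h1.mul (Complex.continuous_re.comp continuous_fst).continuousAt)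
  have hcl : IsClosed ((Set.range ((↑) : ℤ → ℝ)) ×ˢ (Set.range ((↑) : ℤ → ℝ))) :=
    Int.isClosedEmbedding_coe_real.isClosed_range.prod
      Int.isClosedEmbedding_coe_real.isClosed_range
  have h := hc.isOpen_inter_preimage ho hcl.isOpen_compl
  have he : YY = {q : ℂ × ℂ | 0 < q.1.im} ∩ (fun q : ℂ × ℂ =>
      (q.2.im / q.1.im, q.2.re - q.2.im / q.1.im * q.1.re)) ⁻¹'
      ((Set.range ((↑) : ℤ → ℝ)) ×ˢ (Set.range ((↑) : ℤ → ℝ)))ᶜ := by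
    ext q
    simp only [YY, mem_setOf_eq, mem_inter_iff, mem_preimage, mem_compl_iff, mem_prod, mem_range]
    refine and_congr_right fun hq => not_congr ?_
    have hq' : q.1.im ≠ 0 := ne_of_gt hq
    constructor
    · rintro ⟨m, n, h⟩
      have him : q.2.im = m * q.1.im := by rw [h]; simp
      have hre : q.2.re = m * q.1.re + n := by rw [h]; simp
      refine ⟨⟨m, ?_⟩, ⟨n, ?_⟩⟩
      · rw [him]; field_simp
      · rw [him, hre]; field_simp; ring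
    · rintro ⟨⟨m, hm⟩, ⟨n, hn⟩⟩
      have him : q.2.im = m * q.1.im := by rw [hm]; field_simp
      refine ⟨m, n, Complex.ext ?_ ?_⟩
      · rw [← hm] at hn
        simp
        linarith
      · simp
        linarith
  rw [he]
  exact h

/-- the image under `W` of the point with coordinates `y = (t, ζ)`; the parameters are
`τ, ω, a, b, α, β` -/
noncomputable def zomPsi (x : ℂ × ℂ × ℝ × ℝ × ℝ × ℝ) (y : ℝ × ℂ) : ℂ × ℂ :=
  (cay x.1 (x.2.1 * y.2), x.2.2.1 * cay x.1 (x.2.1 * y.2) + x.2.2.2.1 +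
    y.1 * (x.2.2.2.2.1 - x.2.2.2.2.2 * cay x.1 (x.2.1 * y.2)))

theorem zomPsi_cont {x : ℂ × ℂ × ℝ × ℝ × ℝ × ℝ} {y : ℝ × ℂ} (h : x.2.1 * y.2 ≠ 1) :
    ContinuousAt (fun q : (ℂ × ℂ × ℝ × ℝ × ℝ × ℝ) × (ℝ × ℂ) => zomPsi q.1 q.2) (x, y) := by
  have h1 : ContinuousAt (fun q : (ℂ × ℂ × ℝ × ℝ × ℝ × ℝ) × (ℝ × ℂ) =>
      cay q.1.1 (q.1.2.1 * q.2.2)) (x, y) := by
    unfold cay
    refine ContinuousAt.div ?_ ?_ ?_
    · have : Continuous (fun q : (ℂ × ℂ × ℝ × ℝ × ℝ × ℝ) × (ℝ × ℂ) => (starRingEnd ℂ) q.1.1) :=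
        Complex.continuous_conj.comp (continuous_fst.comp continuous_fst)
      fun_prop
    · fun_prop
    · exact sub_ne_zero.2 (Ne.symm h)
  unfold zomPsi
  have c1 : Continuous (fun q : (ℂ × ℂ × ℝ × ℝ × ℝ × ℝ) × (ℝ × ℂ) => ((q.1.2.2.1 : ℝ) : ℂ)) := by
    fun_prop
  have c2 : Continuous (fun q : (ℂ × ℂ × ℝ × ℝ × ℝ × ℝ) × (ℝ × ℂ) => ((q.1.2.2.2.1 : ℝ) : ℂ)) := by
    fun_prop
  have c3 : Continuous (fun q : (ℂ × ℂ × ℝ × ℝ × ℝ × ℝ) × (ℝ × ℂ) => ((q.2.1 : ℝ) : ℂ)) := by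
    fun_prop
  have c4 : Continuous (fun q : (ℂ × ℂ × ℝ × ℝ × ℝ × ℝ) × (ℝ × ℂ) =>
      ((q.1.2.2.2.2.1 : ℝ) : ℂ)) := by
    fun_prop
  have c5 : Continuous (fun q : (ℂ × ℂ × ℝ × ℝ × ℝ × ℝ) × (ℝ × ℂ) =>
      ((q.1.2.2.2.2.2 : ℝ) : ℂ)) := by
    fun_prop
  exact h1.prodMk (((c1.continuousAt.mul h1).add c2.continuousAt).add
    (c3.continuousAt.mul (c4.continuousAt.sub (c5.continuousAt.mul h1))))

theorem zom_local (hLiw : LiwStmt) {V : Type} [TopologicalSpace V] [SimplyConnectedSpace V]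
    {A : Atlas V} (W : Ell A) (l : Filter ℕ) [l.NeBot] (x : ℕ → ℂ × ℂ × ℝ × ℝ × ℝ × ℝ)
    (x₀ : ℂ × ℂ × ℝ × ℝ × ℝ × ℝ) (hx : Tendsto x l (𝓝 x₀)) (q : V) (δ₀ : ℝ) (hδ₀ : 0 < δ₀)
    (Pn : ℕ → ℝ × ℂ → V) (hPc : ∀ n, ContinuousOn (Pn n) (ball 0 δ₀))
    (hPW : ∀ n, ∀ y ∈ ball (0 : ℝ × ℂ) δ₀, W.W (Pn n y) = zomPsi (x n) y)
    (hPq : Tendsto (fun n => Pn n 0) l (𝓝 q)) :
    ∃ (R : ℝ) (s : ℂ × ℂ → V) (δ : ℝ), 0 < R ∧ ball (W.W q) R ⊆ YY ∧
      ContinuousOn s (ball (W.W q) R) ∧ (∀ m ∈ ball (W.W q) R, W.W (s m) = m) ∧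
      s (W.W q) = q ∧ zomPsi x₀ 0 = W.W q ∧ 0 < δ ∧ δ ≤ δ₀ ∧
      (∀ y ∈ ball (0 : ℝ × ℂ) δ, zomPsi x₀ y ∈ ball (W.W q) R) ∧
      ∀ᶠ n in l, ∀ y ∈ ball (0 : ℝ × ℂ) δ, zomPsi (x n) y ∈ ball (W.W q) R ∧
        Pn n y = s (zomPsi (x n) y) := by
  obtain ⟨R, hR, hRY⟩ := Metric.isOpen_iff.1 zom_isOpen_YY (W.W q) (W.mem q)
  obtain ⟨s, hsc, hsW, hsq⟩ := hLiw V A W (ℂ × ℂ) (ball (W.W q) R) id (W.W q) q (convex_ball _ _)
    (mem_ball_self hR) continuousOn_id (fun m hm => hRY hm) rfl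
  simp only [id] at hsW
  -- the limit of `W (Pn n 0)`
  have hc0 : ContinuousAt (fun q : (ℂ × ℂ × ℝ × ℝ × ℝ × ℝ) × (ℝ × ℂ) => zomPsi q.1 q.2)
      (x₀, 0) := zomPsi_cont (by simp)
  have hlim1 : Tendsto (fun n => zomPsi (x n) 0) l (𝓝 (zomPsi x₀ 0)) := by
    have h1 : Tendsto (fun n => (x n, (0 : ℝ × ℂ))) l (𝓝 (x₀, 0)) :=
      hx.prodMk_nhds tendsto_const_nhds
    exact hc0.tendsto.comp h1
  have hlim2 : Tendsto (fun n => W.W (Pn n 0)) l (𝓝 (W.W q)) :=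
    (W.cont.tendsto q).comp hPq
  have hW0 : zomPsi x₀ 0 = W.W q := by
    refine tendsto_nhds_unique hlim1 (hlim2.congr fun n => ?_)
    exact hPW n 0 (mem_ball_self hδ₀)
  -- `s` inverts `W` near `q`
  have hsinv : ∀ᶠ p in 𝓝 q, s (W.W p) = p := by
    have h1 : ∀ᶠ p in 𝓝 q, W.W p ∈ ball (W.W q) R :=
      W.cont.continuousAt.eventually (isOpen_ball.mem_nhds (mem_ball_self hR))
    have hcs : ContinuousAt s (W.W q) := hsc.continuousAt (isOpen_ball.mem_nhds (mem_ball_self hR))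
    have hcs' : ContinuousAt (fun p => s (W.W p)) q :=
      ContinuousAt.comp (g := s) (f := W.W) hcs W.cont.continuousAt
    have h2 : ∀ᶠ p in 𝓝 q, A.sec q (A.E (s (W.W p))) = s (W.W p) := by
      have h3 : Tendsto (fun p => s (W.W p)) (𝓝 q) (𝓝 q) := by
        have := hcs'.tendsto
        rwa [hsq] at this
      exact h3.eventually (A.near q)
    filter_upwards [h1, h2, A.near q] with p h1 h2 h3
    rw [← h2, ← W.Phi_W, hsW _ h1, W.Phi_W, h3]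
  -- the neighbourhoods
  have hpre : ∀ᶠ z in 𝓝 (x₀, (0 : ℝ × ℂ)), zomPsi z.1 z.2 ∈ ball (W.W q) R := by
    refine hc0.eventually (isOpen_ball.mem_nhds ?_)
    simp only [hW0]
    exact mem_ball_self hR
  rw [nhds_prod_eq, Filter.eventually_prod_iff] at hpre
  obtain ⟨pa, hpa, pb, hpb, hab⟩ := hpre
  obtain ⟨δ₁, hδ₁, hb⟩ := Metric.eventually_nhds_iff_ball.1 hpb
  refine ⟨R, s, min δ₀ δ₁, hR, hRY, hsc, hsW, hsq, hW0, lt_min hδ₀ hδ₁, min_le_left _ _, ?_, ?_⟩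
  · intro y hy
    exact hab hpa.self_of_nhds (hb y (ball_subset_ball (min_le_right _ _) hy))
  · have h1 : ∀ᶠ n in l, s (W.W (Pn n 0)) = Pn n 0 := hPq.eventually hsinv
    filter_upwards [hx.eventually hpa, h1] with n hn1 hn2
    have hin : ∀ y ∈ ball (0 : ℝ × ℂ) (min δ₀ δ₁), zomPsi (x n) y ∈ ball (W.W q) R := fun y hy =>
      hab hn1 (hb y (ball_subset_ball (min_le_right _ _) hy))
    have hPc' : ContinuousOn (Pn n) (ball 0 (min δ₀ δ₁)) :=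
      (hPc n).mono (ball_subset_ball (min_le_left _ _))
    have hPW' : ∀ y ∈ ball (0 : ℝ × ℂ) (min δ₀ δ₁), W.W (Pn n y) = zomPsi (x n) y := fun y hy =>
      hPW n y (ball_subset_ball (min_le_left _ _) hy)
    have hPsc : ContinuousOn (zomPsi (x n)) (ball 0 (min δ₀ δ₁)) := by
      have h2 : ContinuousOn (fun y => W.W (Pn n y)) (ball 0 (min δ₀ δ₁)) :=
        W.cont.comp_continuousOn hPc'
      exact h2.congr fun y hy => (hPW' y hy).symm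
    have h3 : EqOn (Pn n) (fun y => s (zomPsi (x n) y)) (ball 0 (min δ₀ δ₁)) := by
      refine A.eqOn_of_E (convex_ball _ _).isPreconnected hPc' (hsc.comp hPsc hin) ?_
        (mem_ball_self (lt_min hδ₀ hδ₁)) ?_
      · intro y hy
        rw [← W.Phi_W, ← W.Phi_W, hPW' y hy, hsW _ (hin y hy)]
      · rw [← hPW' 0 (mem_ball_self (lt_min hδ₀ hδ₁)), hn2]
    exact fun y hy => ⟨hin y hy, h3 hy⟩

end Pool.Agent.H63.TC
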