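import Pool.Agent.H12.TC.Zom2

/-!
# Project TC: module ZOM, third part: calculations
-/

open Complex Metric Set Filter Topology

namespace Pool.Agent.H63.TC

theorem zom_calc (hLmt : LmtStmt) (hPhd : PhdStmt) {V : Type} [TopologicalSpace V]
    {A : Atlas V} (W : Ell A) (ξ : V → ℂ × ℂ) (L : ℝ → ℂ → V) (g : V ≃ₜ V) (N : ℝ)
    (a b' c d m k : ℤ) (hG : G2 a b' c d) (hgW : ∀ y, W.W (g y) = act a b' c d m k (W.W y))
    (b : ℝ) (z : ℂ) (hz : z ≠ 1) (hτ : 0 < (cay I z).im)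
    (hWL : (W.W (L b (cay I z))).1 = cay I z)
    (h4 : ((c : ℂ) * cay I z + d) * (a - c * ((a * cay I z + b') / (c * cay I z + d))) = 1) :
    W.hh (fun p => ((N : ℝ) : ℂ) • ξ (g.symm p)) (g (L b (cay I z))) =
      N * (a - c * ((a * cay I z + b') / (c * cay I z + d))) ^ 2 *
        (discF W ξ L b z * (2 * I) / (1 - z) ^ 2) := by
  have h1 : (W.W (g (L b (cay I z)))).1 = (a * cay I z + b') / (c * cay I z + d) := by
    rw [hgW]
    simp only [act, hWL]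
  have h2 := (hLmt a b' c d hG (cay I z) hτ).2
  have h3 := (zom_lam hPhd hτ).2.1
  have h5 : ((c : ℂ) * cay I z + d) ≠ 0 := fun h => by
    rw [h, zero_mul] at h4
    exact zero_ne_one h4
  have h6 : (a - c * ((a * cay I z + b') / (c * cay I z + d)) : ℂ)
      = ((c : ℂ) * cay I z + d)⁻¹ := eq_inv_of_mul_eq_one_right h4
  have h7 : (1 - z : ℂ) ≠ 0 := sub_ne_zero.2 (Ne.symm hz)
  have hI : (2 * I : ℂ) ≠ 0 := by simp
  unfold Ell.hh discF Ell.hh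
  simp only [Homeomorph.symm_apply_apply, Prod.smul_fst, smul_eq_mul]
  rw [h1, h2, h6, hWL]
  field_simp

/-- limits along ultrafilters in compact sets -/
theorem zom_lim {X : Type} [TopologicalSpace X] {K : Set X} (hK : IsCompact K)
    (l : Ultrafilter ℕ) (u : ℕ → X) (hu : ∀ᶠ n in (l : Filter ℕ), u n ∈ K) :
    ∃ x ∈ K, Tendsto u l (𝓝 x) := by
  obtain ⟨x, hx, h⟩ := hK.ultrafilter_le_nhds (l.map u) (by
    rw [Ultrafilter.coe_map, le_principal_iff]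
    exact hu)
  exact ⟨x, hx, h⟩

theorem zom_size {r : ℝ} (hr0 : 1 / 2 ≤ r) (hr1 : r < 1) (z τ τ'' : ℂ) (a c : ℝ)
    (w : ℂ) (hw : w * (a - c * τ'') = 1) (him : τ''.im = τ.im / ‖w‖ ^ 2)
    (hτ : τ.im = (1 - r ^ 2) / ‖1 - z‖ ^ 2) (hz : 1 - z ≠ 0) :
    ‖((Real.sqrt (1 - r) * a : ℝ) : ℂ) - ((Real.sqrt (1 - r) * c : ℝ) : ℂ) * τ''‖ ^ 2
      = τ''.im * ‖1 - z‖ ^ 2 / (1 + r) := by
  have h1 : ((Real.sqrt (1 - r) * a : ℝ) : ℂ) - ((Real.sqrt (1 - r) * c : ℝ) : ℂ) * τ''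
      = (Real.sqrt (1 - r) : ℝ) * (a - c * τ'') := by
    push_cast; ring
  have hw0 : w ≠ 0 := fun h => by rw [h, zero_mul] at hw; exact zero_ne_one hw
  have hw1 : 0 < ‖w‖ := norm_pos_iff.2 hw0
  have hz1 : 0 < ‖1 - z‖ := norm_pos_iff.2 hz
  have h2 : ‖w‖ * ‖(a : ℂ) - c * τ''‖ = 1 := by rw [← norm_mul, hw, norm_one]
  have h3 : ‖(a : ℂ) - c * τ''‖ = ‖w‖⁻¹ := eq_inv_of_mul_eq_one_right h2
  rw [h1, norm_mul, Complex.norm_real, Real.norm_eq_abs, abs_of_nonneg (Real.sqrt_nonneg _),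
    mul_pow, Real.sq_sqrt (by linarith), h3, him, hτ]
  have h5 : (1 - r ^ 2) = (1 - r) * (1 + r) := by ring
  have h6 : 1 + r ≠ 0 := by linarith
  have h7 : 1 - r ≠ 0 := by linarith
  rw [h5]
  field_simp

theorem zom_params (l : Ultrafilter ℕ) (τ'' u'' ω : ℕ → ℂ) (a'' b'' α β : ℕ → ℝ) (τ₀ u₀ : ℂ)
    (hτ : Tendsto τ'' l (𝓝 τ₀)) (hu : Tendsto u'' l (𝓝 u₀)) (him : 0 < τ₀.im)
    (hpos : ∀ n, 0 < (τ'' n).im) (hu' : ∀ n, u'' n = a'' n * τ'' n + b'' n) (ε₀ : ℝ)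
    (hε : 0 < ε₀) (hlo : ∀ n, ε₀ * (τ'' n).im ≤ ‖(α n : ℂ) - β n * τ'' n‖ ^ 2)
    (hhi : ∀ n, ‖(α n : ℂ) - β n * τ'' n‖ ^ 2 ≤ 4 * (τ'' n).im) (hω : ∀ n, ‖ω n‖ = 1) :
    ∃ (ω₀ : ℂ) (a₀ b₀ α₀ β₀ : ℝ),
      Tendsto (fun n => ((τ'' n, ω n, a'' n, b'' n, α n, β n) : ℂ × ℂ × ℝ × ℝ × ℝ × ℝ)) l
        (𝓝 (τ₀, ω₀, a₀, b₀, α₀, β₀)) ∧ ‖ω₀‖ = 1 ∧ (α₀ : ℂ) - β₀ * τ₀ ≠ 0 := by
  have hτim : Tendsto (fun n => (τ'' n).im) l (𝓝 τ₀.im) :=
    (Complex.continuous_im.tendsto _).comp hτ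
  have hτre : Tendsto (fun n => (τ'' n).re) l (𝓝 τ₀.re) :=
    (Complex.continuous_re.tendsto _).comp hτ
  have huim : Tendsto (fun n => (u'' n).im) l (𝓝 u₀.im) :=
    (Complex.continuous_im.tendsto _).comp hu
  have hure : Tendsto (fun n => (u'' n).re) l (𝓝 u₀.re) :=
    (Complex.continuous_re.tendsto _).comp hu
  obtain ⟨ω₀, hω₀, hωl⟩ := zom_lim (isCompact_sphere (0 : ℂ) 1) l ω
    (Eventually.of_forall fun n => by simp [hω n])
  obtain ⟨v₀, -, hv⟩ := zom_lim (isCompact_closedBall (0 : ℂ) (4 * (τ₀.im + 1) + 1)) l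
    (fun n => (α n : ℂ) - β n * τ'' n) (by
      filter_upwards [hτim.eventually (gt_mem_nhds (show τ₀.im < τ₀.im + 1 by linarith))]
        with n hn
      rw [mem_closedBall, dist_zero_right]
      have h1 := hhi n
      nlinarith [norm_nonneg ((α n : ℂ) - β n * τ'' n),
        sq_nonneg (‖(α n : ℂ) - β n * τ'' n‖ - 1)])
  have hv1 : ε₀ * τ₀.im ≤ ‖v₀‖ ^ 2 :=
    le_of_tendsto_of_tendsto' (hτim.const_mul ε₀) (hv.norm.pow 2) hlo
  have hv0 : v₀ ≠ 0 := by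
    rintro rfl
    rw [norm_zero] at hv1
    have := mul_pos hε him
    norm_num at hv1
    linarith
  have hvim : Tendsto (fun n => ((α n : ℂ) - β n * τ'' n).im) l (𝓝 v₀.im) :=
    (Complex.continuous_im.tendsto _).comp hv
  have hvre : Tendsto (fun n => ((α n : ℂ) - β n * τ'' n).re) l (𝓝 v₀.re) :=
    (Complex.continuous_re.tendsto _).comp hv
  have hβ : Tendsto β l (𝓝 (-v₀.im / τ₀.im)) := by
    refine (hvim.neg.div hτim him.ne').congr fun n => ?_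
    have h1 : (τ'' n).im ≠ 0 := (hpos n).ne'
    simp
    field_simp
  have hα : Tendsto α l (𝓝 (v₀.re + -v₀.im / τ₀.im * τ₀.re)) := by
    refine (hvre.add (hβ.mul hτre)).congr fun n => ?_
    simp
  have ha : Tendsto a'' l (𝓝 (u₀.im / τ₀.im)) := by
    refine (huim.div hτim him.ne').congr fun n => ?_
    have h1 : (τ'' n).im ≠ 0 := (hpos n).ne'
    have h2 : (u'' n).im = a'' n * (τ'' n).im := by rw [hu' n]; simp
    show (u'' n).im / (τ'' n).im = a'' n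
    rw [h2]
    field_simp
  have hb : Tendsto b'' l (𝓝 (u₀.re - u₀.im / τ₀.im * τ₀.re)) := by
    refine (hure.sub (ha.mul hτre)).congr fun n => ?_
    rw [hu' n]
    simp
  refine ⟨ω₀, _, _, _, _, hτ.prodMk_nhds (hωl.prodMk_nhds (ha.prodMk_nhds (hb.prodMk_nhds
    (hα.prodMk_nhds hβ)))), by simpa using hω₀, ?_⟩
  have : ((v₀.re + -v₀.im / τ₀.im * τ₀.re : ℝ) : ℂ) - ((-v₀.im / τ₀.im : ℝ) : ℂ) * τ₀ = v₀ := by
    refine Complex.ext ?_ ?_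
    · simp
    · rw [Complex.sub_im, Complex.ofReal_im, Complex.im_ofReal_mul]
      field_simp
      ring
  rw [this]
  exact hv0

end Pool.Agent.H63.TC
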